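import Pool.Agent.Helper69.MC.StA

/-!
# Project MC (MP_9583f0_gt), module BNB: minimal Plateau surfaces near the boundary
-/

set_option autoImplicit false

open Set Topology Filter MeasureTheory
open Pool.Agent.Helper31.CY Pool.Agent.Helper69.MF Pool.Agent.Helper69.MC

namespace Pool.Agent.Helper5.MC

/-- the closed half-plane -/
def Hf : Set E3 := {v | 0 ≤ v 0 ∧ v 1 = 0}

/-- the plane -/
def Pl : Set E3 := {v | v 1 = 0}

theorem closed_Pl : IsClosed Pl := by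
  have h1 : Continuous fun v : E3 => v 1 := by fun_prop
  exact isClosed_eq h1 continuous_const

theorem closed_Hf : IsClosed Hf := by
  have h0 : Continuous fun v : E3 => v 0 := by fun_prop
  exact (isClosed_le continuous_const h0).inter closed_Pl

theorem exists_equiv (L : E3 →L[ℝ] E3) (h : ∀ v, v ≠ 0 → L v ≠ 0) :
    ∃ A : E3 ≃L[ℝ] E3, (A : E3 →L[ℝ] E3) = L := by
  have hinj : Function.Injective (L : E3 →ₗ[ℝ] E3) := by
    rw [injective_iff_map_eq_zero]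
    intro v hv
    by_contra hne
    exact h v hne hv
  refine ⟨(LinearEquiv.ofInjectiveEndo (L : E3 →ₗ[ℝ] E3) hinj).toContinuousLinearEquiv, ?_⟩
  ext v
  rfl

theorem tcn_bdy (hTC1 : StTC1) (S : Set E3) (x : E3) (Φ : E3 → E3) (A : E3 ≃L[ℝ] E3)
    (hA : HasStrictFDerivAt Φ (A : E3 →L[ℝ] E3) x) (N : Set E3) (hN : N ∈ 𝓝 x)
    (h0 : Φ x 0 = 0) (h1 : Φ x 1 = 0) (hS : ∀ y ∈ N, y ∈ S ↔ 0 ≤ Φ y 0 ∧ Φ y 1 = 0) :
    ∀ v, v ∈ TCn S x ↔ 0 ≤ A v 0 ∧ A v 1 = 0 := by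
  refine hTC1 E3 E3 S x (fun y => Φ y - Φ x) A Hf N (hA.sub_const _) (sub_self _) hN ?_
    closed_Hf ?_
  · intro y hy
    rw [hS y hy]
    simp [Hf, h0, h1]
  · rintro l hl y ⟨hy0, hy1⟩
    refine ⟨?_, ?_⟩
    · simpa using mul_nonneg hl hy0
    · simp [hy1]

theorem tcn_int (hTC1 : StTC1) (S : Set E3) (x : E3) (Φ : E3 → E3) (A : E3 ≃L[ℝ] E3)
    (hA : HasStrictFDerivAt Φ (A : E3 →L[ℝ] E3) x) (N : Set E3) (hN : N ∈ 𝓝 x)
    (h1 : Φ x 1 = 0) (hS : ∀ y ∈ N, y ∈ S ↔ Φ y 1 = 0) :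
    ∀ v, v ∈ TCn S x ↔ A v 1 = 0 := by
  refine hTC1 E3 E3 S x (fun y => Φ y - Φ x) A Pl N (hA.sub_const _) (sub_self _) hN ?_
    closed_Pl ?_
  · intro y hy
    rw [hS y hy]
    simp [Pl, h1]
  · intro l hl y hy
    have hy1 : y 1 = 0 := hy
    simp [Pl, hy1]

theorem no_sym {T : Set E3} (A : E3 ≃L[ℝ] E3) (h : ∀ v, v ∈ T ↔ 0 ≤ A v 0 ∧ A v 1 = 0)
    (hs : ∀ v ∈ T, -v ∈ T) : False := by
  have hv : A (A.symm (pt 1 0 0)) = pt 1 0 0 := A.apply_symm_apply _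
  have h1 : A.symm (pt 1 0 0) ∈ T := (h _).2 (by rw [hv]; simp [pt])
  have h2 := ((h _).1 (hs _ h1)).1
  rw [map_neg, hv] at h2
  simp [pt] at h2
  linarith

theorem hBNB : StTC1 → StTC2 → StBNB := by
  intro hTC1 hTC2 S Γ hS p hp
  obtain ⟨Φ, U, hUo, hpU, hΦ, hΦp, hinj, hSU⟩ := hS.bdy p hp
  obtain ⟨A, hA⟩ := exists_equiv _ hinj
  have hAs : HasStrictFDerivAt Φ (A : E3 →L[ℝ] E3) p := by
    rw [hA]
    exact (hΦ.contDiffAt (hUo.mem_nhds hpU)).hasStrictFDerivAt one_ne_zero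
  -- the set where the derivative is invertible
  have hcont : ContinuousOn (fderiv ℝ Φ) U := hΦ.continuousOn_fderiv_of_isOpen hUo le_rfl
  obtain ⟨W, hWo, hpW, hWU, hst⟩ : ∃ W : Set E3, IsOpen W ∧ p ∈ W ∧ W ⊆ U ∧
      ∀ x ∈ W, ∃ B : E3 ≃L[ℝ] E3, HasStrictFDerivAt Φ (B : E3 →L[ℝ] E3) x := by
    refine ⟨U ∩ fderiv ℝ Φ ⁻¹' (range ((↑) : (E3 ≃L[ℝ] E3) → E3 →L[ℝ] E3)),
      hcont.isOpen_inter_preimage hUo ContinuousLinearEquiv.isOpen, ⟨hpU, ⟨A, hA⟩⟩,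
      fun x hx => hx.1, ?_⟩
    rintro x ⟨hxU, B, hB⟩
    refine ⟨B, ?_⟩
    rw [hB]
    exact (hΦ.contDiffAt (hUo.mem_nhds hxU)).hasStrictFDerivAt one_ne_zero
  obtain ⟨e, he, hps, h0t⟩ : ∃ e : OpenPartialHomeomorph E3 E3, (∀ x, e x = Φ x) ∧
      p ∈ e.source ∧ (0 : E3) ∈ e.target := by
    refine ⟨hAs.toOpenPartialHomeomorph Φ, fun x => rfl, hAs.mem_toOpenPartialHomeomorph_source, ?_⟩
    have h := hAs.image_mem_toOpenPartialHomeomorph_target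
    rwa [hΦp] at h
  have hsym0 : e.symm 0 = p := by
    have h := e.left_inv hps
    rwa [he, hΦp] at h
  have hO : IsOpen (e.target ∩ e.symm ⁻¹' W) := e.isOpen_inter_preimage_symm hWo
  have h0O : (0 : E3) ∈ e.target ∩ e.symm ⁻¹' W :=
    ⟨h0t, mem_preimage.2 (by rw [hsym0]; exact hpW)⟩
  obtain ⟨ε, hε, hball⟩ := Metric.isOpen_iff.1 hO 0 h0O
  obtain ⟨V, hVo, hVm⟩ : ∃ V : Set E3, IsOpen V ∧
      ∀ x, x ∈ V ↔ x ∈ e.source ∧ Φ x ∈ Metric.ball (0 : E3) ε := by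
    refine ⟨e.source ∩ e ⁻¹' Metric.ball 0 ε, e.isOpen_inter_preimage Metric.isOpen_ball, ?_⟩
    intro x
    rw [mem_inter_iff, mem_preimage, he]
  have hpV : p ∈ V := (hVm p).2 ⟨hps, by rw [hΦp]; exact Metric.mem_ball_self hε⟩
  have hinv : ∀ x ∈ V, e.symm (Φ x) = x := by
    intro x hx
    have h := e.left_inv ((hVm x).1 hx).1
    rwa [he] at h
  have hVW : ∀ x ∈ V, x ∈ W := by
    intro x hx
    have h := (hball ((hVm x).1 hx).2).2
    rw [mem_preimage, hinv x hx] at h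
    exact h
  have hVU : ∀ x ∈ V, x ∈ U := fun x hx => hWU (hVW x hx)
  have hV' : ∀ y ∈ Metric.ball (0 : E3) ε, e.symm y ∈ V ∧ Φ (e.symm y) = y := by
    intro y hy
    have hyt := (hball hy).1
    have h1 : Φ (e.symm y) = y := by
      have h := e.right_inv hyt
      rwa [he] at h
    exact ⟨(hVm _).2 ⟨e.map_target hyt, by rw [h1]; exact hy⟩, h1⟩
  obtain ⟨E, hEm⟩ : ∃ E : Set E3, ∀ x, x ∈ E ↔ x ∈ V ∧ 0 < Φ x 0 ∧ Φ x 1 = 0 :=
    ⟨{x | x ∈ V ∧ 0 < Φ x 0 ∧ Φ x 1 = 0}, fun x => Iff.rfl⟩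
  have hEim : E = e.symm '' (Metric.ball 0 ε ∩ {y : E3 | 0 < y 0 ∧ y 1 = 0}) := by
    ext x
    rw [hEm]
    constructor
    · rintro ⟨hxV, h0, h1⟩
      exact ⟨Φ x, ⟨((hVm x).1 hxV).2, h0, h1⟩, hinv x hxV⟩
    · rintro ⟨y, ⟨hyb, hy0, hy1⟩, rfl⟩
      obtain ⟨h1, h2⟩ := hV' y hyb
      refine ⟨h1, ?_, ?_⟩
      · rw [h2]; exact hy0
      · rw [h2]; exact hy1
  have hEcon : IsPreconnected E := by
    rw [hEim]
    have hcx : Convex ℝ (Metric.ball (0 : E3) ε ∩ {y : E3 | 0 < y 0 ∧ y 1 = 0}) := by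
      refine (convex_ball 0 ε).inter ?_
      rintro a ⟨ha0, ha1⟩ b ⟨hb0, hb1⟩ s t hs ht hst
      refine ⟨?_, ?_⟩
      · show 0 < (s • a + t • b) 0
        have : (s • a + t • b) 0 = s * a 0 + t * b 0 := by simp
        rw [this]
        rcases hs.eq_or_lt with h | h
        · subst h
          have : t = 1 := by linarith
          subst this
          simpa using hb0
        · have h1 := mul_pos h ha0
          have h2 := mul_nonneg ht hb0.le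
          linarith
      · show (s • a + t • b) 1 = 0
        have : (s • a + t • b) 1 = s * a 1 + t * b 1 := by simp
        rw [this, ha1, hb1]; ring
    refine hcx.isPreconnected.image _ ?_
    exact e.continuousOn_symm.mono fun y hy => (hball hy.1).1
  refine ⟨E, V, hVo, hpV, hEcon, ?_, ?_, ?_⟩
  · intro x hxE
    obtain ⟨hxV, h0, h1⟩ := (hEm x).1 hxE
    have hxS : x ∈ S := (hSU x (hVU x hxV)).2 ⟨h0.le, h1⟩
    refine ⟨hxS, fun hxΓ => ?_⟩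
    -- interior chart
    obtain ⟨B, hB⟩ := hst x (hVW x hxV)
    have hc0 : ContinuousAt (fun y => Φ y 0) x := by
      have h : ContinuousAt Φ x := hB.continuousAt
      fun_prop
    have hN : {y | 0 < Φ y 0} ∩ V ∈ 𝓝 x :=
      Filter.inter_mem (hc0.eventually (lt_mem_nhds h0)) (hVo.mem_nhds hxV)
    have hT := tcn_int hTC1 S x Φ B hB _ hN h1 (by
      rintro y ⟨hy0, hyV⟩
      have hy0' : 0 < Φ y 0 := hy0
      rw [hSU y (hVU y hyV)]
      exact ⟨fun h => h.2, fun h => ⟨hy0'.le, h⟩⟩)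
    -- boundary chart
    obtain ⟨Ψ, U', hU'o, hxU', hΨ, hΨx, hinj', hSU'⟩ := hS.bdy x hxΓ
    obtain ⟨C, hC⟩ := exists_equiv _ hinj'
    have hCs : HasStrictFDerivAt Ψ (C : E3 →L[ℝ] E3) x := by
      rw [hC]
      exact (hΨ.contDiffAt (hU'o.mem_nhds hxU')).hasStrictFDerivAt one_ne_zero
    have hT' := tcn_bdy hTC1 S x Ψ C hCs U' (hU'o.mem_nhds hxU') (by rw [hΨx]; rfl)
      (by rw [hΨx]; rfl) hSU'
    refine no_sym C hT' ?_
    intro v hv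
    rw [hT] at hv ⊢
    simp [hv]
  · rintro x ⟨hxS, hxV⟩
    obtain ⟨h0, h1⟩ := (hSU x (hVU x hxV)).1 hxS
    have hlim : Tendsto (fun n : ℕ => Φ x + (1 / ((n : ℝ) + 1)) • pt 1 0 0) atTop (𝓝 (Φ x)) := by
      have h : Tendsto (fun n : ℕ => Φ x + (1 / ((n : ℝ) + 1)) • pt 1 0 0) atTop
          (𝓝 (Φ x + (0 : ℝ) • pt 1 0 0)) :=
        tendsto_const_nhds.add (tendsto_one_div_add_atTop_nhds_zero_nat.smul tendsto_const_nhds)
      simpa using h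
    have hev : ∀ᶠ n : ℕ in atTop, Φ x + (1 / ((n : ℝ) + 1)) • pt 1 0 0 ∈ Metric.ball (0 : E3) ε :=
      hlim.eventually (Metric.isOpen_ball.mem_nhds ((hVm x).1 hxV).2)
    have hct : ContinuousAt e.symm (Φ x) := by
      have h := e.continuousAt_symm (e.map_source ((hVm x).1 hxV).1)
      rwa [he] at h
    have hlim2 : Tendsto (fun n : ℕ => e.symm (Φ x + (1 / ((n : ℝ) + 1)) • pt 1 0 0)) atTop
        (𝓝 x) := by
      have h := hct.tendsto.comp hlim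
      rw [hinv x hxV] at h
      exact h
    refine mem_closure_of_tendsto hlim2 ?_
    filter_upwards [hev] with n hn
    obtain ⟨hv1, hv2⟩ := hV' _ hn
    refine (hEm _).2 ⟨hv1, ?_, ?_⟩
    · rw [hv2]
      have hpos : (0 : ℝ) < 1 / ((n : ℝ) + 1) := by positivity
      have : (Φ x + (1 / ((n : ℝ) + 1)) • pt 1 0 0) 0 = Φ x 0 + 1 / ((n : ℝ) + 1) := by
        simp [pt]
      rw [this]
      linarith
    · rw [hv2]
      have : (Φ x + (1 / ((n : ℝ) + 1)) • pt 1 0 0) 1 = Φ x 1 := by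
        simp [pt]
      rw [this, h1]
  · rintro x ⟨hxS, hxV⟩ ⟨f, U', hU'o, hxU', hf, hfd, hSf, -⟩
    obtain ⟨h0, h1⟩ := (hSU x (hVU x hxV)).1 hxS
    refine (hEm x).2 ⟨hxV, ?_, h1⟩
    rcases h0.eq_or_lt with h | h
    · exfalso
      obtain ⟨B, hB⟩ := hst x (hVW x hxV)
      have hT := tcn_bdy hTC1 S x Φ B hB U (hUo.mem_nhds (hVU x hxV)) h.symm h1 hSU
      have hT2 := hTC2 S x f U' hU'o hxU' (hf.of_le (by norm_num)) (hfd x hxU')
        ((hSf x hxU').1 hxS) hSf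
      refine no_sym B hT ?_
      intro v hv
      rw [hT2] at hv ⊢
      simp [hv]
    · exact h

end Pool.Agent.Helper5.MC
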